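import Pool.Agent.helper78.NLS.Spec

/-!
# Project nls:, module L2C (convergence in `L²`)
-/

set_option autoImplicit false

open Complex Metric Set Filter Topology MeasureTheory MPS
open Pool.Agent.helper98.ILF Pool.Agent.helper16.Multibrot

noncomputable section

namespace NLS

/-- dominated convergence in `L²`. -/
theorem L2C_dct (u : ℕ → ℂ → ℂ) (g : ℂ → ℂ) (hu : ∀ k, AEStronglyMeasurable (u k) volume) (hg : MemLp g 2 volume)
    (hb : ∀ k z, ‖u k z‖ ≤ 2 * ‖g z‖) (hl : ∀ᵐ z : ℂ, Tendsto (fun k => u k z) atTop (𝓝 0)) :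
    Tendsto (fun k => eLpNorm (u k) 2 volume) atTop (𝓝 0) := by
  have hG : MemLp (fun z => (2 : ℂ) * g z) 2 volume := hg.const_mul 2
  have hfin : ∫⁻ z, ‖(2 : ℂ) * g z‖ₑ ^ (2 : ℝ) ≠ ⊤ := by
    have := lintegral_rpow_enorm_lt_top_of_eLpNorm_lt_top (p := 2) (by norm_num) (by norm_num) hG.eLpNorm_lt_top
    simpa using this.ne
  have h1 : Tendsto (fun k => ∫⁻ z, ‖u k z‖ₑ ^ (2 : ℝ)) atTop (𝓝 (∫⁻ _ : ℂ, (0 : ENNReal))) := by
    apply tendsto_lintegral_of_dominated_convergence' (fun z => ‖(2 : ℂ) * g z‖ₑ ^ (2 : ℝ))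
    · intro k
      exact ((hu k).enorm).pow_const 2
    · intro k
      refine Eventually.of_forall (fun z => ?_)
      apply ENNReal.rpow_le_rpow _ (by norm_num)
      rw [enorm_le_iff_norm_le, norm_mul]
      have := hb k z
      simpa using this
    · exact hfin
    · filter_upwards [hl] with z hz
      have h2 : Tendsto (fun k => ‖u k z‖ₑ ^ (2 : ℝ)) atTop (𝓝 (‖(0 : ℂ)‖ₑ ^ (2 : ℝ))) :=
        (ENNReal.continuous_rpow_const.tendsto _).comp (hz.enorm)
      simpa using h2
  rw [lintegral_zero] at h1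
  have h3 : ∀ k, eLpNorm (u k) 2 volume = (∫⁻ z, ‖u k z‖ₑ ^ (2 : ℝ)) ^ (1 / (2 : ℝ)) := by
    intro k
    rw [eLpNorm_eq_lintegral_rpow_enorm_toReal (by norm_num) (by norm_num)]
    simp
  simp_rw [h3]
  have h4 := (ENNReal.continuous_rpow_const (y := 1 / (2 : ℝ))).tendsto (0 : ENNReal)
  have h5 := h4.comp h1
  have h6 : (0 : ENNReal) ^ (1 / (2 : ℝ)) = 0 := by
    apply ENNReal.zero_rpow_of_pos; norm_num
  rw [h6] at h5
  exact h5

/-- multiplication. -/
theorem L2C_mul (m u : ℕ → ℂ → ℂ) (μ s : ℂ → ℂ) (hμ : Measurable μ) (hμ1 : ∀ z, ‖μ z‖ ≤ 1) (hm : ∀ k, AEStronglyMeasurable (m k) volume)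
    (hm1 : ∀ k z, ‖m k z‖ ≤ 1) (hml : ∀ᵐ z : ℂ, Tendsto (fun k => m k z) atTop (𝓝 (μ z)))
    (hu : ∀ k, AEStronglyMeasurable (u k) volume) (hs : MemLp s 2 volume)
    (hus : Tendsto (fun k => eLpNorm (fun z => u k z - s z) 2 volume) atTop (𝓝 0)) :
    Tendsto (fun k => eLpNorm (fun z => m k z * u k z - μ z * s z) 2 volume) atTop (𝓝 0) := by
  have h1 : Tendsto (fun k => eLpNorm (fun z => (m k z - μ z) * s z) 2 volume) atTop (𝓝 0) := by
    apply L2C_dct _ s
    · intro k
      exact ((hm k).sub hμ.aestronglyMeasurable).mul hs.aestronglyMeasurable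
    · exact hs
    · intro k z
      rw [norm_mul]
      apply mul_le_mul_of_nonneg_right _ (norm_nonneg _)
      calc ‖m k z - μ z‖ ≤ ‖m k z‖ + ‖μ z‖ := norm_sub_le _ _
        _ ≤ 2 := by have := hm1 k z; have := hμ1 z; linarith
    · filter_upwards [hml] with z hz
      have h2 : Tendsto (fun k => (m k z - μ z) * s z) atTop (𝓝 ((μ z - μ z) * s z)) :=
        (hz.sub tendsto_const_nhds).mul tendsto_const_nhds
      simpa using h2
  have h2 : Tendsto (fun k => eLpNorm (fun z => u k z - s z) 2 volume + eLpNorm (fun z => (m k z - μ z) * s z) 2 volume)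
      atTop (𝓝 0) := by
    have := hus.add h1
    simpa using this
  refine tendsto_of_tendsto_of_tendsto_of_le_of_le tendsto_const_nhds h2 (fun k => zero_le) (fun k => ?_)
  have e : (fun z => m k z * u k z - μ z * s z) = (fun z => m k z * (u k z - s z)) + fun z => (m k z - μ z) * s z := by
    funext z
    simp only [Pi.add_apply]
    ring
  show eLpNorm (fun z => m k z * u k z - μ z * s z) 2 volume ≤ _
  rw [e]
  refine le_trans (eLpNorm_add_le ((hm k).mul ((hu k).sub hs.aestronglyMeasurable))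
    (((hm k).sub hμ.aestronglyMeasurable).mul hs.aestronglyMeasurable) (by norm_num)) ?_
  apply add_le_add _ le_rfl
  apply eLpNorm_mono
  intro z
  rw [norm_mul]
  have := hm1 k z
  nlinarith [norm_nonneg (u k z - s z)]

/-- the limit of the derivatives. -/
theorem L2C_lim (hALG : ALG_stmt) (hCTS : CTS_stmt) (hISO : ISO_stmt) (u : ℕ → ℂ → ℂ) (h : ℂ → ℂ) (hu : ∀ k, Sc 5 (u k))
    (hh : MemLp h 2 volume) (hl : Tendsto (fun k => eLpNorm (fun z => u k z - h z) 2 volume) atTop (𝓝 0)) :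
    ∃ s : ℂ → ℂ, Measurable s ∧ MemLp s 2 volume ∧
      Tendsto (fun k => eLpNorm (fun z => dd (Ct (u k)) z - s z) 2 volume) atTop (𝓝 0) := by
  have hU : ∀ k, MemLp (u k) 2 volume := fun k => (hISO 5 (u k) (by norm_num) (hu k)).1
  have hD : ∀ k, MemLp (dd (Ct (u k))) 2 volume := fun k => (hISO 5 (u k) (by norm_num) (hu k)).2.1
  have hdiff : ∀ k l, eLpNorm (dd (Ct (u k)) - dd (Ct (u l))) 2 volume = eLpNorm (u k - u l) 2 volume := by
    intro k l
    have hsc : Sc 5 (fun z => u k z - u l z) := by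
      refine ⟨(hALG.1 (u k) (u l) (hu k).sm (hu l).sm).2.1, ?_⟩
      intro z hz
      rw [(hu k).supp z hz, (hu l).supp z hz, sub_zero]
    have h1 := (hISO 5 _ (by norm_num) hsc).2.2
    obtain ⟨sk, -, -, rk, ik⟩ := hCTS.2 5 (u k) (hu k)
    obtain ⟨sl, -, -, rl, il⟩ := hCTS.2 5 (u l) (hu l)
    obtain ⟨-, -, -, rkl, -⟩ := hCTS.2 5 _ hsc
    have h2 : Ct (fun z => u k z - u l z) = fun z => Ct (u k) z - Ct (u l) z := by
      funext z
      rw [rkl, rk, rl, ← mul_sub, ← integral_sub (ik z) (il z)]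
      congr 2
      funext w
      ring
    have h3 : dd (Ct (fun z => u k z - u l z)) = dd (Ct (u k)) - dd (Ct (u l)) := by
      rw [h2]
      funext z
      exact ((hALG.1 _ _ sk sl).2.2.2.2.1 z).2
    rw [← h3, h1]
    rfl
  have : Fact ((1 : ENNReal) ≤ 2) := ⟨by norm_num⟩
  have hUc : CauchySeq (fun k => (hU k).toLp (u k)) := by
    apply Tendsto.cauchySeq (x := hh.toLp h)
    rw [Lp.tendsto_Lp_iff_tendsto_eLpNorm'']
    exact hl
  have hDc : CauchySeq (fun k => (hD k).toLp (dd (Ct (u k)))) := by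
    rw [EMetric.cauchySeq_iff] at hUc ⊢
    intro ε hε
    obtain ⟨N, hN⟩ := hUc ε hε
    refine ⟨N, fun k hk l hl' => ?_⟩
    have h1 := hN k hk l hl'
    rw [Lp.edist_toLp_toLp] at h1 ⊢
    rw [hdiff k l]
    exact h1
  obtain ⟨F, hF⟩ := cauchySeq_tendsto_of_complete hDc
  refine ⟨F, (Lp.stronglyMeasurable F).measurable, Lp.memLp F, ?_⟩
  have h1 : F = (Lp.memLp F).toLp F := (Lp.toLp_coeFn F (Lp.memLp F)).symm
  rw [h1, Lp.tendsto_Lp_iff_tendsto_eLpNorm''] at hF
  exact hF

theorem L2C (hALG : ALG_stmt) (hCTS : CTS_stmt) (hPSP : PSP_stmt) (hISO : ISO_stmt) : L2C_stmt := by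
  intro m μ hμ hμ1 hμs hm hml
  have hP := fun k => hPSP 1 5 (m k) le_rfl (by norm_num) (hm k).1 (hm k).2
  have hcont : ∀ k, AEStronglyMeasurable (m k) volume := fun k => ((hm k).1.sm.continuous).aestronglyMeasurable
  have hhpc : ∀ k j, AEStronglyMeasurable (hp (m k) j) volume := fun k j =>
    (((hP k).1 j).2.1.sm.continuous).aestronglyMeasurable
  -- `μ ∈ L²`
  have hind : MemLp (indicator (ball (0 : ℂ) 5) (fun _ => (1 : ℂ))) 2 volume := by
    apply memLp_indicator_const
    · exact measurableSet_ball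
    · right
      exact measure_ball_lt_top.ne
  have hμL : MemLp μ 2 volume := by
    refine MemLp.mono hind hμ.aestronglyMeasurable (Eventually.of_forall (fun z => ?_))
    by_cases hz : ‖z‖ < 5
    · rw [indicator_of_mem (by simpa using hz)]
      simpa using hμ1 z
    · rw [hμs z (by linarith)]
      simp
  -- start
  have hstart : Tendsto (fun k => eLpNorm (fun z => m k z - μ z) 2 volume) atTop (𝓝 0) := by
    apply L2C_dct _ _ _ hind
    · intro k z
      by_cases hz : ‖z‖ < 5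
      · rw [indicator_of_mem (by simpa using hz)]
        calc ‖m k z - μ z‖ ≤ ‖m k z‖ + ‖μ z‖ := norm_sub_le _ _
          _ ≤ 2 * ‖(1 : ℂ)‖ := by have := (hm k).2 z; have := hμ1 z; rw [norm_one]; linarith
      · rw [hμs z (by linarith), (hm k).1.supp z (by linarith)]
        simp
    · filter_upwards [hml] with z hz
      have := hz.sub_const (μ z)
      simpa using this
    · intro k
      exact (hcont k).sub hμ.aestronglyMeasurable
  have hhp0 : ∀ k z, hp (m k) 0 z = m k z := fun k z => ((hP k).2.1 z).1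
  -- induction
  have step1 : ∀ (j : ℕ) (h : ℂ → ℂ), MemLp h 2 volume →
      Tendsto (fun k => eLpNorm (fun z => hp (m k) j z - h z) 2 volume) atTop (𝓝 0) →
      ∃ s : ℂ → ℂ, Measurable s ∧ MemLp s 2 volume ∧
        Tendsto (fun k => eLpNorm (fun z => dd (ps (m k) (j + 1)) z - s z) 2 volume) atTop (𝓝 0) := by
    intro j h hh hl
    exact L2C_lim hALG hCTS hISO (fun k => hp (m k) j) h (fun k => ((hP k).1 j).2.1) hh hl
  have step2 : ∀ (j : ℕ) (s : ℂ → ℂ), MemLp s 2 volume →
      Tendsto (fun k => eLpNorm (fun z => dd (ps (m k) (j + 1)) z - s z) 2 volume) atTop (𝓝 0) →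
      Tendsto (fun k => eLpNorm (fun z => hp (m k) (j + 1) z - μ z * s z) 2 volume) atTop (𝓝 0) := by
    intro j s hs hl
    refine L2C_mul m (fun k => dd (ps (m k) (j + 1))) μ s hμ hμ1 hcont (fun k z => (hm k).2 z) hml ?_ hs hl
    intro k
    have h1 := (hALG.2.1 _ ((hP k).1 (j + 1)).1).2.1
    exact h1.continuous.aestronglyMeasurable
  have hμs2 : ∀ s : ℂ → ℂ, MemLp s 2 volume → MemLp (fun z => μ z * s z) 2 volume := by
    intro s hs
    refine MemLp.mono hs (hμ.aestronglyMeasurable.mul hs.aestronglyMeasurable) (Eventually.of_forall (fun z => ?_))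
    rw [norm_mul]
    have := hμ1 z
    nlinarith [norm_nonneg (s z)]
  have key : ∀ j : ℕ, ∃ s : ℂ → ℂ, Measurable s ∧ MemLp s 2 volume ∧
      Tendsto (fun k => eLpNorm (fun z => dd (ps (m k) (j + 1)) z - s z) 2 volume) atTop (𝓝 0) := by
    intro j
    induction j with
    | zero =>
      apply step1 0 μ hμL
      simp_rw [hhp0]
      exact hstart
    | succ j ih =>
      obtain ⟨s, hsm, hsL, hsl⟩ := ih
      exact step1 (j + 1) _ (hμs2 s hsL) (step2 j s hsL hsl)
  choose s' hs'm hs'L hs'l using key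
  obtain ⟨S, hS0, hS1⟩ : ∃ S : ℕ → ℂ → ℂ, (∀ z, S 0 z = 1) ∧ ∀ j, S (j + 1) = s' j := by
    refine ⟨fun j => Nat.rec (motive := fun _ => ℂ → ℂ) (fun _ => (1 : ℂ)) (fun i _ => s' i) j, fun z => rfl, fun j => rfl⟩
  have hS0' : S 0 = fun _ => 1 := funext hS0
  have hμ0 : (fun z => μ z * S 0 z) = μ := by
    funext z
    rw [hS0, mul_one]
  have hlim : ∀ j, Tendsto (fun k => eLpNorm (fun z => hp (m k) j z - μ z * S j z) 2 volume) atTop (𝓝 0) := by
    intro j
    cases j with
    | zero =>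
      simp_rw [hS0, mul_one, hhp0]
      exact hstart
    | succ j =>
      rw [hS1]
      exact step2 j (s' j) (hs'L j) (hs'l j)
  have hHL : ∀ j : ℕ, MemLp (fun z => μ z * S j z) 2 volume := by
    intro j
    cases j with
    | zero =>
      rw [hμ0]
      exact hμL
    | succ j =>
      rw [hS1]
      exact hμs2 _ (hs'L j)
  have hsm : ∀ j : ℕ, Measurable (S j) := by
    intro j
    cases j with
    | zero => rw [hS0']; exact measurable_const
    | succ j => rw [hS1]; exact hs'm j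
  refine ⟨fun j z => μ z * S j z, S, hμ0, ?_, hS0, fun j => by rw [hS1]; exact hs'L j, fun j z => rfl, ?_, hlim,
    fun j => by rw [hS1]; exact hs'l j⟩
  · intro j
    exact ⟨hμ.mul (hsm j), hHL j, hsm j⟩
  · intro j
    set Hj : ℂ → ℂ := fun z => μ z * S j z with hHj
    have h1 : ∀ k, eLpNorm Hj 2 volume ≤
        eLpNorm μ 2 volume + (eLpNorm (fun z => m k z - μ z) 2 volume +
          eLpNorm (fun z => hp (m k) j z - Hj z) 2 volume) := by
      intro k
      have a1 : eLpNorm Hj 2 volume ≤ eLpNorm (hp (m k) j) 2 volume + eLpNorm (fun z => hp (m k) j z - Hj z) 2 volume := by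
        have e : Hj = (hp (m k) j) - fun z => hp (m k) j z - Hj z := by
          funext z
          simp
        calc eLpNorm Hj 2 volume = eLpNorm ((hp (m k) j) - fun z => hp (m k) j z - Hj z) 2 volume := by rw [← e]
          _ ≤ _ := eLpNorm_sub_le (hhpc k j) ((hhpc k j).sub (hHL j).aestronglyMeasurable) (by norm_num)
      have a2 : eLpNorm (hp (m k) j) 2 volume ≤ eLpNorm (m k) 2 volume := ((hP k).1 j).2.2.2.2.1
      have a3 : eLpNorm (m k) 2 volume ≤ eLpNorm μ 2 volume + eLpNorm (fun z => m k z - μ z) 2 volume := by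
        have e : m k = μ + fun z => m k z - μ z := by
          funext z
          simp
        calc eLpNorm (m k) 2 volume = eLpNorm (μ + fun z => m k z - μ z) 2 volume := by rw [← e]
          _ ≤ _ := eLpNorm_add_le hμ.aestronglyMeasurable ((hcont k).sub hμ.aestronglyMeasurable) (by norm_num)
      calc eLpNorm Hj 2 volume ≤ eLpNorm (hp (m k) j) 2 volume + eLpNorm (fun z => hp (m k) j z - Hj z) 2 volume := a1
        _ ≤ (eLpNorm μ 2 volume + eLpNorm (fun z => m k z - μ z) 2 volume) + eLpNorm (fun z => hp (m k) j z - Hj z) 2 volume :=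
          add_le_add (le_trans a2 a3) le_rfl
        _ = _ := by rw [add_assoc]
    have h2 : Tendsto (fun k => eLpNorm μ 2 volume + (eLpNorm (fun z => m k z - μ z) 2 volume +
          eLpNorm (fun z => hp (m k) j z - Hj z) 2 volume)) atTop
          (𝓝 (eLpNorm μ 2 volume + (0 + 0))) :=
      tendsto_const_nhds.add (hstart.add (hlim j))
    rw [add_zero, add_zero] at h2
    exact ge_of_tendsto' h2 h1

end NLS
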